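import Mathlib

set_option autoImplicit false

/-!
Completions of ultrametric spaces are isometric if and only if the spaces of closed balls of
positive radius with the Hausdorff distance are isometric.
-/

universe u v w

namespace Pool.Agent.Results.MP_856f66_gt.BallsCompletion

open Set Metric Filter Topology UniformSpace

/-- The set of closed balls of strictly positive radius of `X`, regarded as subsets of `X`. -/
def PosBall (X : Type u) [MetricSpace X] : Type u :=
  {B : Set X // ∃ (c : X) (r : ℝ), 0 < r ∧ B = closedBall c r}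

/-- The spaces of closed balls of positive radius of `X` and `Y`, with the Hausdorff distance,
are isometric. -/
def BallsIsometric (X : Type u) (Y : Type v) [MetricSpace X] [MetricSpace Y] : Prop :=
  ∃ e : PosBall X ≃ PosBall Y, ∀ A B : PosBall X,
    hausdorffDist (e A).1 (e B).1 = hausdorffDist A.1 B.1

/-! ### The Hausdorff distance between balls -/

section balls

variable {X : Type u} [MetricSpace X]

/-- The Hausdorff distance between two balls. -/
noncomputable def rho (A B : PosBall X) : ℝ := hausdorffDist A.1 B.1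

/-- The diameter of a ball. -/
noncomputable def dm (A : PosBall X) : ℝ := diam A.1

/-- A ball with given centre and radius. -/
def bl (x : X) (r : ℝ) (hr : 0 < r) : PosBall X := ⟨closedBall x r, x, r, hr, rfl⟩

lemma exists_mem (A : PosBall X) : ∃ x, x ∈ A.1 := by
  obtain ⟨B, c, r, hr, rfl⟩ := A
  exact ⟨c, mem_closedBall_self hr.le⟩

/-- A point of a ball. -/
noncomputable def pt (A : PosBall X) : X := (exists_mem A).choose

lemma pt_mem (A : PosBall X) : pt A ∈ A.1 := (exists_mem A).choose_spec

lemma bdd (A : PosBall X) : Bornology.IsBounded A.1 := by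
  obtain ⟨B, c, r, hr, rfl⟩ := A
  exact isBounded_closedBall

lemma dist_le_dm {A : PosBall X} {x y : X} (hx : x ∈ A.1) (hy : y ∈ A.1) : dist x y ≤ dm A :=
  dist_le_diam_of_mem (bdd A) hx hy

lemma dm_nonneg (A : PosBall X) : 0 ≤ dm A := diam_nonneg

lemma dm_le {A : PosBall X} {r : ℝ} (hr : 0 ≤ r) (h : ∀ x ∈ A.1, ∀ y ∈ A.1, dist x y ≤ r) :
    dm A ≤ r :=
  diam_le_of_forall_dist_le hr h

lemma fin_ne_top (A B : PosBall X) : hausdorffEDist A.1 B.1 ≠ ⊤ :=
  hausdorffEDist_ne_top_of_nonempty_of_bounded (exists_mem A) (exists_mem B) (bdd A) (bdd B)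

lemma rho_comm (A B : PosBall X) : rho A B = rho B A := hausdorffDist_comm

lemma rho_self (A : PosBall X) : rho A A = 0 := hausdorffDist_self_zero

variable [IsUltrametricDist X]

lemma dist_max (x y z : X) : dist x z ≤ max (dist x y) (dist y z) :=
  dist_triangle_max x y z

lemma dm_bl_le (x : X) {r : ℝ} (hr : 0 < r) : dm (bl x r hr) ≤ r := by
  apply dm_le hr.le
  intro y hy z hz
  have h1 : dist y x ≤ r := hy
  have h2 : dist z x ≤ r := hz
  rw [dist_comm] at h2
  exact (dist_max y x z).trans (max_le h1 h2)

lemma bl_eq {x y : X} {r : ℝ} (hr : 0 < r) (h : dist x y ≤ r) : bl x r hr = bl y r hr := by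
  apply Subtype.ext
  exact (IsUltrametricDist.closedBall_eq_of_mem (mem_closedBall.2 h)).symm

/-- A ball of positive diameter is the closed ball around each of its points with radius the
diameter. -/
lemma eq_bl {A : PosBall X} (h : 0 < dm A) {x : X} (hx : x ∈ A.1) : A = bl x (dm A) h := by
  apply Subtype.ext
  ext y
  constructor
  · intro hy
    exact dist_le_dm hy hx
  · intro hy
    obtain ⟨B, c, r, hr, rfl⟩ := A
    have h1 : dist y x ≤ r := by
      have h2 : dist y x ≤ dm ⟨closedBall c r, c, r, hr, rfl⟩ := hy
      exact h2.trans (dm_bl_le c hr)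
    have h3 : dist x c ≤ r := hx
    exact (dist_max y x c).trans (max_le h1 h3)

omit [IsUltrametricDist X] in
lemma eq_singleton {A : PosBall X} (h : dm A = 0) {x : X} (hx : x ∈ A.1) : A.1 = {x} := by
  ext y
  constructor
  · intro hy
    have h1 := dist_le_dm hy hx
    rw [h] at h1
    exact dist_le_zero.1 h1
  · intro hy
    rw [mem_singleton_iff] at hy
    rwa [hy]

lemma rho_le {A B : PosBall X} {x y : X} (hx : x ∈ A.1) (hy : y ∈ B.1) :
    rho A B ≤ max (max (dm A) (dm B)) (dist x y) := by
  apply hausdorffDist_le_of_mem_dist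
  · exact dist_nonneg.trans (le_max_right _ _)
  · intro z hz
    refine ⟨y, hy, (dist_max z x y).trans (max_le_max ?_ le_rfl)⟩
    exact (dist_le_dm hz hx).trans (le_max_left _ _)
  · intro z hz
    refine ⟨x, hx, (dist_max z y x).trans (max_le_max ?_ (dist_comm y x).le)⟩
    exact (dist_le_dm hz hy).trans (le_max_right _ _)

lemma aux_lower {A B : PosBall X} {x y : X} (hx : x ∈ A.1) (hy : y ∈ B.1) {z : X} (hzA : z ∈ A.1)
    (hzB : z ∉ B.1) {r : ℝ} (h : rho A B < r) :
    dm A ≤ r ∧ dm B ≤ r ∧ dist x y ≤ r := by
  have h1 : ∀ w ∈ A.1, ∃ v ∈ B.1, dist w v < r := fun w hw =>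
    exists_dist_lt_of_hausdorffDist_lt hw h (fin_ne_top A B)
  obtain ⟨C, c, s, hs, rfl⟩ := B
  have hz : s < dist z c := by
    by_contra hcon
    exact hzB (not_lt.1 hcon)
  obtain ⟨v, hv, hzv⟩ := h1 z hzA
  have hvc : dist v c ≤ s := hv
  have hsr : s < r := by
    have h2 := dist_max z v c
    rcases le_max_iff.1 h2 with h3 | h3
    · linarith
    · linarith
  have hr : 0 ≤ r := by linarith
  have hyc : dist y c ≤ s := hy
  have hAy : ∀ w ∈ A.1, dist w y ≤ r := by
    intro w hw
    obtain ⟨v', hv', hwv⟩ := h1 w hw
    have h4 : dist v' c ≤ s := hv'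
    have h5 : dist v' y ≤ s := by
      refine (dist_max v' c y).trans (max_le h4 ?_)
      rw [dist_comm]
      exact hyc
    exact (dist_max w v' y).trans (max_le hwv.le (h5.trans hsr.le))
  refine ⟨dm_le hr fun w hw w' hw' => ?_, ?_, hAy x hx⟩
  · refine (dist_max w y w').trans (max_le (hAy w hw) ?_)
    rw [dist_comm]
    exact hAy w' hw'
  · exact (dm_bl_le c hs).trans hsr.le

/-- The Hausdorff distance of two different balls is the diameter of their union. -/
lemma rho_eq {A B : PosBall X} (hne : A ≠ B) {x y : X} (hx : x ∈ A.1) (hy : y ∈ B.1) :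
    rho A B = max (max (dm A) (dm B)) (dist x y) := by
  apply le_antisymm (rho_le hx hy)
  apply le_of_forall_gt_imp_ge_of_dense
  intro r hr
  have hne' : A.1 ≠ B.1 := fun h => hne (Subtype.ext h)
  by_cases hAB : A.1 ⊆ B.1
  · have hBA : ¬ B.1 ⊆ A.1 := fun h => hne' (hAB.antisymm h)
    obtain ⟨z, hzB, hzA⟩ := not_subset.1 hBA
    rw [rho_comm] at hr
    obtain ⟨h1, h2, h3⟩ := aux_lower hy hx hzB hzA hr
    rw [dist_comm] at h3
    exact max_le (max_le h2 h1) h3
  · obtain ⟨z, hzA, hzB⟩ := not_subset.1 hAB
    obtain ⟨h1, h2, h3⟩ := aux_lower hx hy hzA hzB hr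
    exact max_le (max_le h1 h2) h3

lemma rho_pos {A B : PosBall X} (hne : A ≠ B) : 0 < rho A B := by
  rw [rho_eq hne (pt_mem A) (pt_mem B)]
  by_contra h
  rw [not_lt] at h
  have h1 : dm A ≤ 0 := ((le_max_left _ _).trans (le_max_left _ _)).trans h
  have h2 : dm B ≤ 0 := ((le_max_right _ _).trans (le_max_left _ _)).trans h
  have h3 : dist (pt A) (pt B) ≤ 0 := (le_max_right _ _).trans h
  apply hne
  apply Subtype.ext
  rw [eq_singleton (le_antisymm h1 (dm_nonneg A)) (pt_mem A),
    eq_singleton (le_antisymm h2 (dm_nonneg B)) (pt_mem B), dist_le_zero.1 h3]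

lemma dm_le_rho {A B : PosBall X} (hne : A ≠ B) : dm A ≤ rho A B := by
  rw [rho_eq hne (pt_mem A) (pt_mem B)]
  exact (le_max_left _ _).trans (le_max_left _ _)

/-- A ball of positive diameter has another ball at distance equal to its diameter. -/
lemma exists_near {A : PosBall X} (h : 0 < dm A) : ∃ B, B ≠ A ∧ rho A B = dm A := by
  obtain ⟨x, hx, y, hy, hxy⟩ : ∃ x ∈ A.1, ∃ y ∈ A.1, 0 < dist x y := by
    by_contra hcon
    push Not at hcon
    exact absurd (dm_le le_rfl hcon) (not_le.2 h)
  have hxy' : 0 < dist x y / 2 := half_pos hxy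
  let B : PosBall X := bl x (dist x y / 2) hxy'
  have hxB : x ∈ B.1 := mem_closedBall_self hxy'.le
  have hyB : y ∉ B.1 := by
    intro hyB
    have : dist y x ≤ dist x y / 2 := hyB
    rw [dist_comm] at this
    linarith
  have hne : A ≠ B := by
    intro h1
    rw [← h1] at hyB
    exact hyB hy
  refine ⟨B, hne.symm, ?_⟩
  rw [rho_eq hne hx hxB, dist_self]
  have h1 : dm B ≤ dm A := by
    refine (dm_bl_le x hxy').trans ?_
    have := dist_le_dm hx hy
    linarith
  rw [max_eq_left h1, max_eq_left h.le]

/-- The thickening of a ball. -/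
noncomputable def th (A : PosBall X) (r : ℝ) (hr : 0 < r) : PosBall X := bl (pt A) r hr

lemma th_congr {A B : PosBall X} {r : ℝ} (hr : 0 < r) (h : rho A B ≤ r) :
    th A r hr = th B r hr := by
  by_cases hne : A = B
  · rw [hne]
  · apply bl_eq
    refine le_trans ?_ h
    rw [rho_eq hne (pt_mem A) (pt_mem B)]
    exact le_max_right _ _

lemma th_self {A : PosBall X} (h : 0 < dm A) : th A (dm A) h = A := (eq_bl h (pt_mem A)).symm

omit [IsUltrametricDist X] in
lemma th_congr' {A : PosBall X} {r s : ℝ} (hr : 0 < r) (hs : 0 < s) (h : r = s) :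
    th A r hr = th A s hs := by
  subst h
  rfl

omit [IsUltrametricDist X] in
lemma subset_th {A : PosBall X} {r : ℝ} (hr : 0 < r) (h : dm A ≤ r) : A.1 ⊆ (th A r hr).1 :=
  fun _ hx => (dist_le_dm hx (pt_mem A)).trans h

omit [IsUltrametricDist X] in
lemma dm_mono {A B : PosBall X} (h : A.1 ⊆ B.1) : dm A ≤ dm B := diam_mono h (bdd B)

/-- Two balls are twins if they are contained in the same balls of positive diameter. -/
def Twin (A B : PosBall X) : Prop := ∀ C : PosBall X, 0 < dm C → (A.1 ⊆ C.1 ↔ B.1 ⊆ C.1)

omit [IsUltrametricDist X] in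
lemma Twin.symm {A B : PosBall X} (h : Twin A B) : Twin B A := fun C hC => (h C hC).symm

omit [IsUltrametricDist X] in
lemma Twin.trans {A B C : PosBall X} (h : Twin A B) (h' : Twin B C) : Twin A C := fun D hD =>
  (h D hD).trans (h' D hD)

omit [IsUltrametricDist X] in
lemma Twin.eq {A B : PosBall X} (h : Twin A B) (hA : 0 < dm A) (hB : 0 < dm B) : A = B :=
  Subtype.ext (((h B hB).2 Subset.rfl).antisymm ((h A hA).1 Subset.rfl))

lemma rho_le_of_twin {A B A' B' : PosBall X} (hA : Twin A A') (hB : Twin B B') (hne : A ≠ B) :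
    rho A' B' ≤ rho A B := by
  have hpos := rho_pos hne
  let C := th A (rho A B) hpos
  have hAC : A.1 ⊆ C.1 := subset_th hpos (dm_le_rho hne)
  have hBC : B.1 ⊆ C.1 := by
    have h1 : B.1 ⊆ (th B (rho A B) hpos).1 := by
      apply subset_th
      rw [rho_comm]
      exact dm_le_rho hne.symm
    rwa [← th_congr hpos le_rfl] at h1
  have hC : dm C ≤ rho A B := dm_bl_le _ hpos
  have hC0 : 0 < dm C := by
    refine lt_of_lt_of_le hpos ?_
    rw [rho_eq hne (pt_mem A) (pt_mem B)]
    refine max_le (max_le (dm_mono hAC) (dm_mono hBC)) ?_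
    exact dist_le_dm (hAC (pt_mem A)) (hBC (pt_mem B))
  have hA' : A'.1 ⊆ C.1 := (hA C hC0).1 hAC
  have hB' : B'.1 ⊆ C.1 := (hB C hC0).1 hBC
  refine (rho_le (pt_mem A') (pt_mem B')).trans (le_trans ?_ hC)
  refine max_le (max_le (dm_mono hA') (dm_mono hB')) ?_
  exact dist_le_dm (hA' (pt_mem A')) (hB' (pt_mem B'))

lemma rho_eq_of_twin {A B A' B' : PosBall X} (hA : Twin A A') (hB : Twin B B') (hne : A ≠ B)
    (hne' : A' ≠ B') : rho A' B' = rho A B :=
  le_antisymm (rho_le_of_twin hA hB hne) (rho_le_of_twin hA.symm hB.symm hne')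

end balls

/-! ### Modification of an isometry -/

section modify

variable {X : Type u} [MetricSpace X] [IsUltrametricDist X] {Y : Type v} [MetricSpace Y]
  [IsUltrametricDist Y]

/-- Isometric bijections between spaces of balls. -/
def IsIso (e : PosBall X ≃ PosBall Y) : Prop := ∀ A B, rho (e A) (e B) = rho A B

omit [IsUltrametricDist X] [IsUltrametricDist Y] in
lemma IsIso.symm {e : PosBall X ≃ PosBall Y} (h : IsIso e) : IsIso e.symm := by
  intro A B
  rw [← h, e.apply_symm_apply, e.apply_symm_apply]

variable {e : PosBall X ≃ PosBall Y} (he : IsIso e)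

include he

lemma dm_image_le {A : PosBall X} (h : 0 < dm A) : dm (e A) ≤ dm A := by
  obtain ⟨B, hne, hB⟩ := exists_near h
  rw [← hB, ← he]
  exact dm_le_rho fun h1 => hne (e.injective h1).symm

lemma dm_th {A : PosBall X} (h : 0 < dm A) : dm (th (e A) (dm A) h) = dm A := by
  apply le_antisymm (dm_bl_le _ h)
  obtain ⟨B, hne, hB⟩ := exists_near h
  have hne' : e A ≠ e B := fun h1 => hne (e.injective h1).symm
  have h1 : rho (e A) (e B) = dm A := by rw [he, hB]
  have hA : (e A).1 ⊆ (th (e A) (dm A) h).1 := subset_th h (dm_image_le he h)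
  have hB' : (e B).1 ⊆ (th (e A) (dm A) h).1 := by
    rw [th_congr h h1.le]
    apply subset_th
    rw [← h1, rho_comm]
    exact dm_le_rho hne'.symm
  conv_lhs => rw [← h1, rho_eq hne' (pt_mem _) (pt_mem _)]
  refine max_le (max_le (dm_mono hA) (dm_mono hB')) ?_
  exact dist_le_dm (hA (pt_mem _)) (hB' (pt_mem _))

/-- The thickening of the image of a ball of positive diameter is a twin of the image. -/
lemma twin_th {A : PosBall X} (h : 0 < dm A) : Twin (th (e A) (dm A) h) (e A) := by
  intro C hC
  have hsub : (e A).1 ⊆ (th (e A) (dm A) h).1 := subset_th h (dm_image_le he h)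
  refine ⟨fun h1 => hsub.trans h1, fun h1 => ?_⟩
  have hp : pt (e A) ∈ C.1 := h1 (pt_mem _)
  have hle : dm A ≤ dm C := by
    by_contra hlt
    rw [not_le] at hlt
    by_cases hAC : e A = C
    · obtain ⟨B, hne, hB⟩ := exists_near hC
      have h2 : rho A (e.symm B) = rho (e A) B := by
        rw [← he, e.apply_symm_apply]
      have h3 : A ≠ e.symm B := by
        intro h3
        apply hne
        rw [← hAC, h3, e.apply_symm_apply]
      have h4 := dm_le_rho h3
      rw [h2, hAC, hB] at h4
      linarith
    · have h2 : rho A (e.symm C) = rho (e A) C := by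
        rw [← he, e.apply_symm_apply]
      have h3 : A ≠ e.symm C := by
        intro h3
        apply hAC
        rw [h3, e.apply_symm_apply]
      have h4 := dm_le_rho h3
      rw [h2] at h4
      have h5 : rho (e A) C ≤ dm C := by
        refine (rho_le (pt_mem _) hp).trans ?_
        rw [dist_self]
        exact max_le (max_le (dm_mono h1) le_rfl) hC.le
      linarith
  intro y hy
  have hy' : dist y (pt (e A)) ≤ dm A := hy
  rw [eq_bl hC hp]
  exact hy'.trans hle

lemma th_symm {A : PosBall X} (h : 0 < dm A) :
    th (e.symm (th (e A) (dm A) h)) (dm A) h = A := by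
  have h1 : rho (e.symm (th (e A) (dm A) h)) A ≤ dm A := by
    rw [← he, e.apply_symm_apply]
    have hp : pt (e A) ∈ (th (e A) (dm A) h).1 := mem_closedBall_self h.le
    refine (rho_le hp (pt_mem (e A))).trans ?_
    rw [dist_self, dm_th he h]
    exact max_le (max_le le_rfl (dm_image_le he h)) h.le
  rw [th_congr h h1, th_self h]

end modify

section modify2

variable {X : Type u} [MetricSpace X] [IsUltrametricDist X] {Y : Type v} [MetricSpace Y]
  [IsUltrametricDist Y]

open Classical in
/-- The modified map. -/
noncomputable def md (e : PosBall X ≃ PosBall Y) (A : PosBall X) : PosBall Y :=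
  if h : 0 < dm A then th (e A) (dm A) h
  else if h' : 0 < dm (e A) then e (th A (dm (e A)) h')
  else e A

variable {e : PosBall X ≃ PosBall Y}

omit [IsUltrametricDist X] [IsUltrametricDist Y] in
lemma md_pos {A : PosBall X} (h : 0 < dm A) : md e A = th (e A) (dm A) h := dif_pos h

omit [IsUltrametricDist X] [IsUltrametricDist Y] in
lemma md_mid {A : PosBall X} (h : ¬ 0 < dm A) (h' : 0 < dm (e A)) :
    md e A = e (th A (dm (e A)) h') := by
  rw [md, dif_neg h, dif_pos h']

omit [IsUltrametricDist X] [IsUltrametricDist Y] in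
lemma md_zero {A : PosBall X} (h : ¬ 0 < dm A) (h' : ¬ 0 < dm (e A)) : md e A = e A := by
  rw [md, dif_neg h, dif_neg h']

variable (he : IsIso e)

include he

/-- The facts about the middle case. -/
lemma mid_facts {A : PosBall X} (h : ¬ 0 < dm A) (h' : 0 < dm (e A)) :
    dm (th A (dm (e A)) h') = dm (e A) ∧ th (e (th A (dm (e A)) h')) (dm (e A)) h' = e A ∧
    Twin (e (th A (dm (e A)) h')) (e A) ∧ dm (e (th A (dm (e A)) h')) = 0 := by
  have h1 : dm (th A (dm (e A)) h') = dm (e A) := by
    have := dm_th he.symm h'
    rwa [e.symm_apply_apply] at this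
  have h2 : th (e (th A (dm (e A)) h')) (dm (e A)) h' = e A := by
    have := th_symm he.symm h'
    rwa [e.symm_apply_apply] at this
  have h3 : Twin (e (th A (dm (e A)) h')) (e A) := by
    have hpos : 0 < dm (th A (dm (e A)) h') := by rw [h1]; exact h'
    have h4 := twin_th he hpos
    rw [th_congr' hpos h' h1, h2] at h4
    exact h4.symm
  refine ⟨h1, h2, h3, ?_⟩
  by_contra h4
  have h5 : 0 < dm (e (th A (dm (e A)) h')) := lt_of_le_of_ne (dm_nonneg _) (Ne.symm h4)
  have h6 := e.injective (h3.eq h5 h')
  rw [h6] at h1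
  exact h (by rw [h1]; exact h')

lemma dm_md (A : PosBall X) : dm (md e A) = dm A := by
  by_cases h : 0 < dm A
  · rw [md_pos h, dm_th he h]
  · have h0 : dm A = 0 := le_antisymm (not_lt.1 h) (dm_nonneg A)
    by_cases h' : 0 < dm (e A)
    · rw [md_mid h h', (mid_facts he h h').2.2.2, h0]
    · rw [md_zero h h', h0]
      exact le_antisymm (not_lt.1 h') (dm_nonneg _)

lemma twin_md (A : PosBall X) : Twin (md e A) (e A) := by
  by_cases h : 0 < dm A
  · rw [md_pos h]
    exact twin_th he h
  · by_cases h' : 0 < dm (e A)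
    · rw [md_mid h h']
      exact (mid_facts he h h').2.2.1
    · rw [md_zero h h']
      exact fun _ _ => Iff.rfl

lemma md_md (A : PosBall X) : md e.symm (md e A) = A := by
  by_cases h : 0 < dm A
  · have h1 : 0 < dm (md e A) := by rw [dm_md he]; exact h
    rw [md_pos h1, th_congr' h1 h (dm_md he A), md_pos h]
    exact th_symm he h
  · by_cases h' : 0 < dm (e A)
    · obtain ⟨h1, h2, _, h4⟩ := mid_facts he h h'
      rw [md_mid h h']
      have h5 : ¬ 0 < dm (e (th A (dm (e A)) h')) := by rw [h4]; exact lt_irrefl 0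
      have h6 : 0 < dm (e.symm (e (th A (dm (e A)) h'))) := by
        rw [e.symm_apply_apply, h1]
        exact h'
      rw [md_mid h5 h6]
      have h7 : dm (e.symm (e (th A (dm (e A)) h'))) = dm (e A) := by
        rw [e.symm_apply_apply, h1]
      rw [th_congr' h6 h' h7, h2, e.symm_apply_apply]
    · rw [md_zero h h']
      have h1 : ¬ 0 < dm (e.symm (e A)) := by rw [e.symm_apply_apply]; exact h
      rw [md_zero h' h1, e.symm_apply_apply]

/-- An isometry between the spaces of balls can be chosen to preserve diameters. -/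
lemma exists_dm_preserving : ∃ e' : PosBall X ≃ PosBall Y, IsIso e' ∧ ∀ A, dm (e' A) = dm A := by
  let e' : PosBall X ≃ PosBall Y :=
    { toFun := md e
      invFun := md e.symm
      left_inv := md_md he
      right_inv := by
        intro B
        have := md_md he.symm B
        rwa [e.symm_symm] at this }
  refine ⟨e', fun A B => ?_, dm_md he⟩
  by_cases hAB : A = B
  · rw [hAB, rho_self, rho_self]
  · have h1 : e' A ≠ e' B := fun h => hAB (e'.injective h)
    have h2 : e A ≠ e B := fun h => hAB (e.injective h)
    rw [← he A B]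
    exact rho_eq_of_twin (twin_md he A).symm (twin_md he B).symm h2 h1

end modify2

/-! ### From balls to completions -/

section backward

variable {X : Type u} [MetricSpace X] [IsUltrametricDist X] {Y : Type v} [MetricSpace Y]
  [IsUltrametricDist Y]

lemma exists_isometry {e : PosBall X ≃ PosBall Y} (he : IsIso e) (hd : ∀ A, dm (e A) = dm A) :
    ∃ f : X → Completion Y, Isometry f ∧ DenseRange f := by
  classical
  let ε : ℕ → ℝ := fun n => 1 / ((n : ℝ) + 1)
  have hε : ∀ n, 0 < ε n := fun n => Nat.one_div_pos_of_nat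
  have hε0 : Tendsto ε atTop (𝓝 0) := tendsto_one_div_add_atTop_nhds_zero_nat
  let A : X → ℕ → PosBall X := fun x n => bl x (ε n) (hε n)
  have hxA : ∀ x n, x ∈ (A x n).1 := fun x n => mem_closedBall_self (hε n).le
  have hAd : ∀ x n, dm (A x n) ≤ ε n := fun x n => dm_bl_le x (hε n)
  let y : X → ℕ → Y := fun x n => pt (e (A x n))
  have hy : ∀ x n, y x n ∈ (e (A x n)).1 := fun x n => pt_mem _
  -- a general estimate
  have hest : ∀ (B C : PosBall X) (p q : Y), p ∈ (e B).1 → q ∈ (e C).1 → ∀ (a c : X), a ∈ B.1 →
      c ∈ C.1 → dist p q ≤ max (max (dm B) (dm C)) (dist a c) := by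
    intro B C p q hp hq a c ha hc
    by_cases hBC : B = C
    · subst hBC
      have := dist_le_dm hp hq
      rw [hd] at this
      exact this.trans ((le_max_left _ _).trans (le_max_left _ _))
    · have hne : e B ≠ e C := fun h => hBC (e.injective h)
      refine le_trans ?_ (rho_le ha hc)
      rw [← he, rho_eq hne hp hq]
      exact le_max_right _ _
  have hεanti : ∀ n m, n ≤ m → ε m ≤ ε n := fun n m h => by
    apply one_div_le_one_div_of_le
    · positivity
    · have : (n : ℝ) ≤ m := by exact_mod_cast h
      linarith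
  have hcauchy : ∀ x, CauchySeq (y x) := by
    intro x
    apply cauchySeq_of_le_tendsto_0 ε _ hε0
    intro n m N hn hm
    refine (hest (A x n) (A x m) _ _ (hy x n) (hy x m) x x (hxA x n) (hxA x m)).trans ?_
    rw [dist_self]
    refine max_le (max_le ((hAd x n).trans (hεanti _ _ hn)) ((hAd x m).trans (hεanti _ _ hm))) ?_
    exact (hε N).le
  have hlim : ∀ x, ∃ z : Completion Y, Tendsto (fun n => (y x n : Completion Y)) atTop (𝓝 z) :=
    fun x => cauchySeq_tendsto_of_complete
      ((Completion.uniformContinuous_coe Y).comp_cauchySeq (hcauchy x))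
  choose f hf using hlim
  refine ⟨f, ?_, ?_⟩
  · apply Isometry.of_dist_eq
    intro a c
    by_cases hac : a = c
    · rw [hac, dist_self, dist_self]
    · have hpos : 0 < dist a c := dist_pos.2 hac
      have h1 : Tendsto (fun n => dist (y a n : Completion Y) (y c n)) atTop
          (𝓝 (dist (f a) (f c))) := (hf a).dist (hf c)
      apply tendsto_nhds_unique h1
      apply tendsto_const_nhds.congr'
      have h2 : ∀ᶠ n in atTop, ε n < dist a c := hε0.eventually (gt_mem_nhds hpos)
      filter_upwards [h2] with n hn
      rw [Completion.dist_eq]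
      have hne : A a n ≠ A c n := by
        intro h
        have : c ∈ (A a n).1 := by rw [h]; exact hxA c n
        have h3 : dist c a ≤ ε n := this
        rw [dist_comm] at h3
        linarith
      have hne' : e (A a n) ≠ e (A c n) := fun h => hne (e.injective h)
      have h3 := he (A a n) (A c n)
      rw [rho_eq hne (hxA a n) (hxA c n), rho_eq hne' (hy a n) (hy c n), hd, hd] at h3
      have h4 : max (dm (A a n)) (dm (A c n)) < dist a c :=
        (max_le (hAd a n) (hAd c n)).trans_lt hn
      rw [max_eq_right h4.le] at h3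
      rcases le_total (max (dm (A a n)) (dm (A c n))) (dist (y a n) (y c n)) with h5 | h5
      · rw [max_eq_right h5] at h3
        exact h3.symm
      · rw [max_eq_left h5] at h3
        linarith
  · -- dense range
    have hdense : ∀ z : Y, (z : Completion Y) ∈ closure (range f) := by
      intro z
      rw [Metric.mem_closure_iff]
      intro δ hδ
      have hδ2 : 0 < δ / 2 := half_pos hδ
      let B : PosBall Y := bl z (δ / 2) hδ2
      let C : PosBall X := e.symm B
      have hCd : dm C ≤ δ / 2 := by
        have h1 := hd C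
        have h2 : e C = B := e.apply_symm_apply B
        rw [h2] at h1
        rw [← h1]
        exact dm_bl_le z hδ2
      have hzC : z ∈ (e C).1 := by
        have h2 : e C = B := e.apply_symm_apply B
        rw [h2]
        exact mem_closedBall_self hδ2.le
      refine ⟨f (pt C), ⟨_, rfl⟩, ?_⟩
      have h1 : Tendsto (fun n => dist (z : Completion Y) (y (pt C) n)) atTop
          (𝓝 (dist (z : Completion Y) (f (pt C)))) := tendsto_const_nhds.dist (hf (pt C))
      have h2 : ∀ᶠ n in atTop, dist (z : Completion Y) (y (pt C) n) ≤ δ / 2 := by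
        have h3 : ∀ᶠ n in atTop, ε n < δ / 2 := hε0.eventually (gt_mem_nhds hδ2)
        filter_upwards [h3] with n hn
        rw [Completion.dist_eq]
        refine (hest C (A (pt C) n) _ _ hzC (hy _ n) (pt C) (pt C) (pt_mem C) (hxA _ n)).trans ?_
        rw [dist_self]
        exact max_le (max_le hCd ((hAd _ n).trans hn.le)) hδ2.le
      have h3 := le_of_tendsto h1 h2
      linarith
    intro z
    have h1 : range ((↑) : Y → Completion Y) ⊆ closure (range f) := by
      rintro _ ⟨z, rfl⟩
      exact hdense z
    have h2 := closure_mono h1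
    rw [closure_closure, Completion.denseRange_coe.closure_range] at h2
    exact h2 (mem_univ z)

omit [IsUltrametricDist X] in
/-- An isometry into a complete space with dense range extends to an isometry of the
completion. -/
lemma extend {Z : Type w} [MetricSpace Z] [CompleteSpace Z] {f : X → Z} (hf : Isometry f)
    (hd : DenseRange f) : Nonempty (Completion X ≃ᵢ Z) := by
  let g : Completion X → Z := Completion.extension f
  have hg : Isometry g := hf.completion_extension
  have hgf : ∀ x : X, g x = f x := fun x => Completion.extension_coe hf.uniformContinuous x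
  have hcl : IsClosed (range g) := hg.isClosedEmbedding.isClosed_range
  have hsurj : Function.Surjective g := by
    rw [← range_eq_univ]
    have h1 : range f ⊆ range g := by
      rintro _ ⟨x, rfl⟩
      exact ⟨x, hgf x⟩
    have h2 := hcl.closure_eq ▸ closure_mono h1
    rw [hd.closure_range] at h2
    exact univ_subset_iff.1 h2
  exact ⟨{ toEquiv := Equiv.ofBijective g ⟨hg.injective, hsurj⟩, isometry_toFun := hg }⟩

theorem backward (h : BallsIsometric X Y) : Nonempty (Completion X ≃ᵢ Completion Y) := by
  obtain ⟨e, he⟩ := h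
  obtain ⟨e', he', hd⟩ := exists_dm_preserving (e := e) he
  obtain ⟨f, hf, hfd⟩ := exists_isometry he' hd
  exact extend hf hfd

end backward

/-! ### From completions to balls -/

section forward

lemma isUltrametric_completion (X : Type u) [MetricSpace X] [IsUltrametricDist X] :
    IsUltrametricDist (Completion X) := by
  refine ⟨fun x y z => ?_⟩
  induction x, y, z using Completion.induction_on₃ with
  | hp =>
    apply isClosed_le
    · fun_prop
    · fun_prop
  | ih x y z =>
    rw [Completion.dist_eq, Completion.dist_eq, Completion.dist_eq]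
    exact dist_triangle_max x y z

/-- The spaces of balls of `X` and of its completion are isometric. -/
lemma balls_completion (X : Type u) [MetricSpace X] [IsUltrametricDist X] :
    BallsIsometric (Completion X) X := by
  classical
  have := isUltrametric_completion X
  have hball : ∀ B : PosBall (Completion X), ∃ (c : X) (r : ℝ), 0 < r ∧
      B.1 = closedBall (c : Completion X) r := by
    rintro ⟨B, c, r, hr, rfl⟩
    obtain ⟨x, hx⟩ := Completion.denseRange_coe.exists_dist_lt c hr
    refine ⟨x, r, hr, ?_⟩
    apply IsUltrametricDist.closedBall_eq_of_mem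
    rw [mem_closedBall, dist_comm]
    exact hx.le
  have hpre : ∀ (c : X) (r : ℝ), ((↑) : X → Completion X) ⁻¹' closedBall (c : Completion X) r =
      closedBall c r := by
    intro c r
    ext x
    simp [Completion.dist_eq]
  let F : PosBall (Completion X) → PosBall X := fun B =>
    ⟨((↑) : X → Completion X) ⁻¹' B.1, by
      obtain ⟨c, r, hr, hB⟩ := hball B
      exact ⟨c, r, hr, by rw [hB, hpre]⟩⟩
  have hcl : ∀ B : PosBall (Completion X), closure (((↑) : X → Completion X) '' (F B).1) = B.1 := by
    intro B
    obtain ⟨c, r, hr, hB⟩ := hball B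
    have h1 : ((↑) : X → Completion X) '' (F B).1 = B.1 ∩ range ((↑) : X → Completion X) :=
      image_preimage_eq_inter_range
    have hopen : IsOpen B.1 := by
      rw [hB]
      exact IsUltrametricDist.isOpen_closedBall _ hr.ne'
    have hclosed : IsClosed B.1 := by
      rw [hB]
      exact isClosed_closedBall
    rw [h1]
    apply Subset.antisymm
    · exact closure_minimal inter_subset_left hclosed
    · exact Completion.denseRange_coe.open_subset_closure_inter hopen
  have hdist : ∀ A B, hausdorffDist (F A).1 (F B).1 = hausdorffDist A.1 B.1 := by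
    intro A B
    rw [← hcl A, ← hcl B, hausdorffDist_closure, hausdorffDist_image Completion.coe_isometry]
  have hinj : Function.Injective F := by
    intro A B h
    apply Subtype.ext
    rw [← hcl A, ← hcl B, h]
  have hsurj : Function.Surjective F := by
    rintro ⟨B, c, r, hr, rfl⟩
    exact ⟨⟨closedBall (c : Completion X) r, c, r, hr, rfl⟩, Subtype.ext (hpre c r)⟩
  exact ⟨Equiv.ofBijective F ⟨hinj, hsurj⟩, hdist⟩

lemma balls_of_isometry {X : Type u} [MetricSpace X] {Y : Type v} [MetricSpace Y] (g : X ≃ᵢ Y) :
    BallsIsometric X Y := by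
  refine ⟨{ toFun := fun B => ⟨g '' B.1, ?_⟩
            invFun := fun B => ⟨g.symm '' B.1, ?_⟩
            left_inv := fun B => Subtype.ext ?_
            right_inv := fun B => Subtype.ext ?_ }, fun A B => ?_⟩
  · obtain ⟨C, c, r, hr, rfl⟩ := B
    exact ⟨g c, r, hr, g.image_closedBall c r⟩
  · obtain ⟨C, c, r, hr, rfl⟩ := B
    exact ⟨g.symm c, r, hr, g.symm.image_closedBall c r⟩
  · change g.symm '' (g '' B.1) = B.1
    rw [← image_comp]
    simp
  · change g '' (g.symm '' B.1) = B.1
    rw [← image_comp]
    simp
  · exact hausdorffDist_image g.isometry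

lemma BallsIsometric.symm {X : Type u} [MetricSpace X] {Y : Type v} [MetricSpace Y]
    (h : BallsIsometric X Y) : BallsIsometric Y X := by
  obtain ⟨e, he⟩ := h
  refine ⟨e.symm, fun A B => ?_⟩
  rw [← he, e.apply_symm_apply, e.apply_symm_apply]

lemma BallsIsometric.trans {X : Type u} [MetricSpace X] {Y : Type v} [MetricSpace Y]
    {Z : Type w} [MetricSpace Z] (h : BallsIsometric X Y) (h' : BallsIsometric Y Z) :
    BallsIsometric X Z := by
  obtain ⟨e, he⟩ := h
  obtain ⟨e', he'⟩ := h'
  refine ⟨e.trans e', fun A B => ?_⟩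
  rw [Equiv.trans_apply, Equiv.trans_apply, he', he]

end forward

/-- **Isometry of completions versus isometry of ball spaces.** For all ultrametric spaces `X`
and `Y`, the completions of `X` and `Y` are isometric if and only if the sets of closed balls
of positive radius of `X` and `Y`, with the Hausdorff distance, are isometric. -/
theorem result (X : Type u) [MetricSpace X] [IsUltrametricDist X] [Nonempty X]
    (Y : Type v) [MetricSpace Y] [IsUltrametricDist Y] [Nonempty Y] :
    Nonempty (Completion X ≃ᵢ Completion Y) ↔ BallsIsometric X Y :=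
  ⟨fun ⟨g⟩ => (balls_completion X).symm.trans ((balls_of_isometry g).trans (balls_completion Y)),
    fun h => backward h⟩

end Pool.Agent.Results.MP_856f66_gt.BallsCompletion
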